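import Pool.Agent.H78.Dis.Defs

set_option autoImplicit false

/-!
Module CNT of the disproof of Q1 of MP_c9b280_co: counting with representatives.
-/

open Finset Fintype

namespace H31Dis

open H67Blow H78D

variable {X : Type}

/-- the choice of representatives: for each role a bulk index or nothing. -/
abbrev Ch (a : X → ℕ) (W : ℕ) : Type := ∀ r : X × Fin 3, Option (Fin (W * a r.1))

/-- exchange of the chosen bulk vertex with the special vertex `1` of the same role. -/
def sw (a : X → ℕ) (W : ℕ) (c : Ch a W) (p : HV a W) : HV a W :=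
  ⟨p.1, match c p.1 with
    | none => p.2
    | some i => Equiv.swap (Sum.inl i) (Sum.inr 1) p.2⟩

lemma sw_sw (a : X → ℕ) (W : ℕ) (c : Ch a W) (p : HV a W) : sw a W c (sw a W c p) = p := by
  obtain ⟨r, x⟩ := p
  unfold sw
  rcases h : c r with _ | i
  · simp
  · simp

lemma sw_fst (a : X → ℕ) (W : ℕ) (c : Ch a W) (p : HV a W) : (sw a W c p).1 = p.1 := rfl

lemma sw_inr0 (a : X → ℕ) (W : ℕ) (c : Ch a W) (r : X × Fin 3) :
    sw a W c ⟨r, Sum.inr 0⟩ = ⟨r, Sum.inr 0⟩ := by
  unfold sw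
  rcases h : c r with _ | i
  · simp
  · simp only []
    rw [Equiv.swap_apply_of_ne_of_ne] <;> simp

lemma sw_inr2 (a : X → ℕ) (W : ℕ) (c : Ch a W) (r : X × Fin 3) :
    sw a W c ⟨r, Sum.inr 2⟩ = ⟨r, Sum.inr 2⟩ := by
  unfold sw
  rcases h : c r with _ | i
  · simp
  · simp only []
    rw [Equiv.swap_apply_of_ne_of_ne] <;> simp

lemma sw_inr1 (a : X → ℕ) (W : ℕ) (c : Ch a W) (r : X × Fin 3) (i : Fin (W * a r.1))
    (h : c r = some i) : sw a W c ⟨r, Sum.inr 1⟩ = ⟨r, Sum.inl i⟩ := by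
  unfold sw
  simp [h]

lemma sw_none (a : X → ℕ) (W : ℕ) (c : Ch a W) (p : HV a W)
    (h : c p.1 = none) : sw a W c p = p := by
  unfold sw
  simp [h]

open Classical in
theorem stCnt : StCnt := by
  intro X _ _ K a W V _ G v r₀ M hM hyp
  -- the choice function
  let cc : (HV a W → V) → Ch a W := fun f r =>
    if h : ∃ i : Fin (W * a r.1), f ⟨r, Sum.inl i⟩ ∈ Yset K G (fun s => f ⟨s, Sum.inr 0⟩) r.1
    then some h.choose else none
  let F : Finset (HV a W → V) := (injs (HG K a W) G).filter (fun f => f ⟨r₀, Sum.inr 2⟩ = v)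
  let BB : Ch a W → Finset (X × Fin 3) := fun c => univ.filter (fun r => c r = none)
  let ES : (X × Fin 3 → V) → (X × Fin 3 → V) → Finset (X × Fin 3) →
      Finset ((Σ r : X × Fin 3, Fin (W * a r.1)) → V) := fun g₁ g₂ B =>
    univ.filter (fun φ =>
      (∀ p, φ p ∈ Xset K G g₁ g₂ B r₀ v p.1) ∧ ∀ p q, (HR K).Adj p.1 q.1 → G.Adj (φ p) (φ q))
  let T : Finset (Σ _ : Ch a W × (X × Fin 3 → V) × (X × Fin 3 → V) × (X × Fin 3 → V),
      ((Σ r : X × Fin 3, Fin (W * a r.1)) → V)) :=
    univ.sigma (fun q => if Valid K G q.2.1 q.2.2.1 (BB q.1) then ES q.2.1 q.2.2.1 (BB q.1) else ∅)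
  -- the map
  let Φ : (HV a W → V) × V → (Σ _ : Ch a W × (X × Fin 3 → V) × (X × Fin 3 → V) × (X × Fin 3 → V),
      ((Σ r : X × Fin 3, Fin (W * a r.1)) → V)) := fun fw =>
    ⟨(cc fw.1, fun r => fw.1 (sw a W (cc fw.1) ⟨r, Sum.inr 0⟩),
      fun r => fw.1 (sw a W (cc fw.1) ⟨r, Sum.inr 1⟩),
      Function.update (fun r => fw.1 (sw a W (cc fw.1) ⟨r, Sum.inr 2⟩)) r₀ fw.2),
      fun p => fw.1 (sw a W (cc fw.1) ⟨p.1, Sum.inl p.2⟩)⟩
  have hcard : #(F ×ˢ (univ : Finset V)) ≤ #T := by
    apply Finset.card_le_card_of_injOn Φ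
    · rintro ⟨f, w⟩ hf
      rw [Finset.mem_coe, Finset.mem_product] at hf
      have hf := hf.1
      simp only [F, injs, mem_filter, mem_univ, true_and] at hf
      obtain ⟨⟨hinj, hhom⟩, hv⟩ := hf
      have hhom' : ∀ p q : HV a W, (HR K).Adj p.1 q.1 →
          G.Adj (f (sw a W (cc f) p)) (f (sw a W (cc f) q)) := by
        intro p q hpq
        exact hhom _ _ hpq
      have hval : Valid K G (fun r => f (sw a W (cc f) ⟨r, Sum.inr 0⟩))
          (fun r => f (sw a W (cc f) ⟨r, Sum.inr 1⟩)) (BB (cc f)) := by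
        refine ⟨fun r s hrs => hhom' ⟨r, Sum.inr 0⟩ ⟨s, Sum.inr 0⟩ hrs, ?_⟩
        intro r hr
        have hr' : cc f r ≠ none := by
          intro h
          exact hr (by simp [BB, h])
        have hex : ∃ i : Fin (W * a r.1),
            f ⟨r, Sum.inl i⟩ ∈ Yset K G (fun s => f ⟨s, Sum.inr 0⟩) r.1 := by
          by_contra hne
          apply hr'
          simp only [cc]
          rw [dif_neg hne]
        have hc : cc f r = some hex.choose := by
          simp only [cc]
          rw [dif_pos hex]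
        have hfun : (fun r => f (sw a W (cc f) ⟨r, Sum.inr 0⟩)) = fun s => f ⟨s, Sum.inr 0⟩ := by
          funext s
          rw [sw_inr0]
        rw [hfun]
        change f (sw a W (cc f) ⟨r, Sum.inr 1⟩) ∈ _
        rw [sw_inr1 a W (cc f) r _ hc]
        exact hex.choose_spec
      rw [Finset.mem_coe, Finset.mem_sigma]
      refine ⟨mem_univ _, ?_⟩
      change _ ∈ (if Valid K G (fun r => f (sw a W (cc f) ⟨r, Sum.inr 0⟩))
          (fun r => f (sw a W (cc f) ⟨r, Sum.inr 1⟩)) (BB (cc f)) then _ else _)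
      rw [if_pos hval]
      simp only [ES, mem_filter, mem_univ, true_and]
      refine ⟨?_, ?_⟩
      · intro p
        simp only [Xset, mem_filter, mem_univ, true_and]
        refine ⟨?_, ?_, ?_⟩
        · intro s hs
          exact ⟨hhom' ⟨p.1, Sum.inl p.2⟩ ⟨s, Sum.inr 0⟩ hs,
            hhom' ⟨p.1, Sum.inl p.2⟩ ⟨s, Sum.inr 1⟩ hs⟩
        · intro hp hY
          have hnone : cc f p.1 = none := by
            simpa [BB] using hp
          have hfun : (fun r => f (sw a W (cc f) ⟨r, Sum.inr 0⟩)) = fun s => f ⟨s, Sum.inr 0⟩ := by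
            funext s
            rw [sw_inr0]
          have hsw : sw a W (cc f) ⟨p.1, Sum.inl p.2⟩ = ⟨p.1, Sum.inl p.2⟩ :=
            sw_none a W (cc f) ⟨p.1, Sum.inl p.2⟩ hnone
          change f (sw a W (cc f) ⟨p.1, Sum.inl p.2⟩) ∈
            Yset K G (fun r => f (sw a W (cc f) ⟨r, Sum.inr 0⟩)) p.1.1 at hY
          rw [hfun, hsw] at hY
          have hex : ∃ i : Fin (W * a p.1.1),
            f ⟨p.1, Sum.inl i⟩ ∈ Yset K G (fun s => f ⟨s, Sum.inr 0⟩) p.1.1 := ⟨p.2, hY⟩
          simp only [cc] at hnone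
          rw [dif_pos hex] at hnone
          exact absurd hnone (by simp)
        · intro hr
          have h1 := hhom' ⟨p.1, Sum.inl p.2⟩ ⟨r₀, Sum.inr 2⟩ hr
          rw [sw_inr2, hv] at h1
          exact h1
      · intro p q hpq
        exact hhom' ⟨p.1, Sum.inl p.2⟩ ⟨q.1, Sum.inl q.2⟩ hpq
    · rintro ⟨f, w⟩ hf ⟨k, u⟩ hk hΦ
      rw [Finset.mem_coe, Finset.mem_product] at hf hk
      have hfv : f ⟨r₀, Sum.inr 2⟩ = v := (mem_filter.mp hf.1).2
      have hkv : k ⟨r₀, Sum.inr 2⟩ = v := (mem_filter.mp hk.1).2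
      simp only [Φ, Sigma.mk.injEq, Prod.mk.injEq] at hΦ
      obtain ⟨⟨hc, h1, h2, h3⟩, h4⟩ := hΦ
      have h4 := eq_of_heq h4
      have hw : w = u := by
        have := congrFun h3 r₀
        simpa using this
      subst hw
      have h3' : ∀ r, f (sw a W (cc f) ⟨r, Sum.inr 2⟩) = k (sw a W (cc k) ⟨r, Sum.inr 2⟩) := by
        intro r
        by_cases hr : r = r₀
        · subst hr
          rw [sw_inr2, sw_inr2, hfv, hkv]
        · have := congrFun h3 r
          simpa [Function.update_of_ne hr] using this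
      have hall : ∀ p : HV a W, f (sw a W (cc f) p) = k (sw a W (cc k) p) := by
        rintro ⟨r, x⟩
        rcases x with i | j
        · exact congrFun h4 ⟨r, i⟩
        · fin_cases j
          · exact congrFun h1 r
          · exact congrFun h2 r
          · exact h3' r
      congr 1
      funext p
      have h5 := hall (sw a W (cc f) p)
      rw [← hc, sw_sw] at h5
      exact h5
  have hT : (#T : ℝ) ≤ (∏ r : X × Fin 3, ((W * a r.1 : ℕ) + 1 : ℝ)) *
      (card V : ℝ) ^ (3 * card (X × Fin 3)) * M := by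
    have h1 : #T = ∑ q : Ch a W × (X × Fin 3 → V) × (X × Fin 3 → V) × (X × Fin 3 → V),
        #(if Valid K G q.2.1 q.2.2.1 (BB q.1) then ES q.2.1 q.2.2.1 (BB q.1) else ∅) :=
      Finset.card_sigma _ _
    rw [h1]
    push_cast
    have h2 : ∀ q ∈ (univ : Finset (Ch a W × (X × Fin 3 → V) × (X × Fin 3 → V) × (X × Fin 3 → V))),
        (#(if Valid K G q.2.1 q.2.2.1 (BB q.1) then ES q.2.1 q.2.2.1 (BB q.1) else ∅) : ℝ)
          ≤ M := by
      intro q _
      split_ifs with h
      · exact hyp _ _ _ h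
      · simpa using hM
    refine (Finset.sum_le_card_nsmul _ _ _ h2).trans (le_of_eq ?_)
    rw [nsmul_eq_mul, Finset.card_univ, Fintype.card_prod, Fintype.card_prod, Fintype.card_prod]
    rw [Fintype.card_pi]
    simp only [Fintype.card_option, Fintype.card_fin, Fintype.card_fun]
    push_cast
    ring
  have h3 : (#F : ℝ) * card V = #(F ×ˢ (univ : Finset V)) := by
    rw [Finset.card_product, Finset.card_univ]
    push_cast
    rfl
  have h4 : (#F : ℝ) * card V ≤ (∏ r : X × Fin 3, ((W * a r.1 : ℕ) + 1 : ℝ)) *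
      (card V : ℝ) ^ (3 * card (X × Fin 3)) * M := by
    rw [h3]
    exact le_trans (by exact_mod_cast hcard) hT
  convert h4 using 3

end H31Dis
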